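import Pool.Agent.P8H15.FG.Stm2

/-!
# Project FG (helper15), packages UDF and UUU
-/

set_option autoImplicit false

namespace Pool.Agent.P8H88.FG

open Finset Filter Topology
open Pool.Agent.P8H15.FG

theorem sum_sg1 (N : ℕ) :
    ∑ n ∈ Icc 1 N, sg1 n = ∑ m ∈ Icc 1 N, ((N / m : ℕ) : ℝ) * (1 / m) := by
  unfold sg1
  have h1 : ∀ n ∈ Icc 1 N, ∑ m ∈ n.divisors, 1 / (m : ℝ) =
      ∑ m ∈ Icc 1 N, if m ∣ n then 1 / (m : ℝ) else 0 := by
    intro n hn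
    rw [mem_Icc] at hn
    rw [← sum_filter]
    apply sum_congr _ fun _ _ => rfl
    ext m
    simp only [Nat.mem_divisors, mem_filter, mem_Icc]
    constructor
    · rintro ⟨h, h0⟩
      exact ⟨⟨Nat.pos_of_dvd_of_pos h (by omega), (Nat.le_of_dvd (by omega) h).trans hn.2⟩, h⟩
    · rintro ⟨_, h⟩
      exact ⟨h, by omega⟩
  rw [sum_congr rfl h1, sum_comm]
  refine sum_congr rfl fun m hm => ?_
  have h2 := Nat.Ioc_filter_dvd_card_eq_div N m
  have h3 : Icc 1 N = Ioc 0 N := by ext; simp [Nat.succ_le_iff]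
  rw [← sum_filter, sum_const, nsmul_eq_mul, h3, h2]

theorem zeta_low (N : ℕ) : ∑ m ∈ Icc 1 N, 1 / (m : ℝ) ^ 2 ≤ Real.pi ^ 2 / 6 :=
  sum_le_hasSum _ (fun i _ => by positivity) hasSum_zeta_two

theorem zeta_upp {N : ℕ} (hN : 1 ≤ N) :
    Real.pi ^ 2 / 6 ≤ ∑ m ∈ Icc 1 N, 1 / (m : ℝ) ^ 2 + 1 / (N : ℝ) := by
  have hle : ∀ n : ℕ, ∑ i ∈ range n, 1 / (i : ℝ) ^ 2 ≤ ∑ i ∈ Icc 1 N, 1 / (i : ℝ) ^ 2 + 1 / (N : ℝ) := by
    intro n
    have h1 : ∑ i ∈ range n, 1 / (i : ℝ) ^ 2 ≤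
        ∑ i ∈ insert 0 (Icc 1 N ∪ Ioc N (N + n)), 1 / (i : ℝ) ^ 2 :=
      sum_le_sum_of_subset_of_nonneg (by
        intro i hi
        simp only [mem_range, mem_insert, mem_union, mem_Icc, mem_Ioc] at hi ⊢
        omega) (fun i _ _ => by positivity)
    rw [sum_insert (by simp), sum_union (by
      rw [disjoint_left]
      intro i h1 h2
      simp only [mem_Icc, mem_Ioc] at h1 h2
      omega)] at h1
    have h2 := sum_Ioc_inv_sq_le_sub (α := ℝ) (k := N) (n := N + n) (by omega) (by omega)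
    have h3 : ∑ i ∈ Ioc N (N + n), 1 / (i : ℝ) ^ 2 = ∑ i ∈ Ioc N (N + n), ((i : ℝ) ^ 2)⁻¹ :=
      sum_congr rfl fun i _ => one_div _
    have h4 : (0 : ℝ) ≤ ((N + n : ℕ) : ℝ)⁻¹ := by positivity
    rw [h3] at h1
    rw [one_div (N : ℝ)]
    simp only [Nat.cast_zero, ne_eq, OfNat.ofNat_ne_zero, not_false_eq_true, zero_pow, div_zero,
      zero_add] at h1
    linarith
  exact le_of_tendsto' hasSum_zeta_two.tendsto_sum_nat hle

theorem sum_bound {N : ℕ} (hN : 1 ≤ N) :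
    |∑ n ∈ Icc 1 N, sg1 n - Real.pi ^ 2 / 6 * N| ≤ 2 + Real.log N := by
  have hN0 : (0 : ℝ) < N := by exact_mod_cast hN
  rw [sum_sg1]
  have hB : ∑ m ∈ Icc 1 N, ((N : ℝ) / m) * (1 / m) = N * ∑ m ∈ Icc 1 N, 1 / (m : ℝ) ^ 2 := by
    rw [mul_sum]
    refine sum_congr rfl fun m hm => ?_
    have : (m : ℝ) ≠ 0 := by
      have := (mem_Icc.1 hm).1
      positivity
    field_simp
  have h1 : ∑ m ∈ Icc 1 N, ((N / m : ℕ) : ℝ) * (1 / m) ≤ ∑ m ∈ Icc 1 N, ((N : ℝ) / m) * (1 / m) :=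
    sum_le_sum fun m _ => mul_le_mul_of_nonneg_right Nat.cast_div_le (by positivity)
  have h2 : ∑ m ∈ Icc 1 N, ((N : ℝ) / m) * (1 / m) ≤
      ∑ m ∈ Icc 1 N, ((N / m : ℕ) : ℝ) * (1 / m) + ∑ m ∈ Icc 1 N, 1 / (m : ℝ) := by
    rw [← sum_add_distrib]
    refine sum_le_sum fun m hm => ?_
    have hm0 : 0 < m := (mem_Icc.1 hm).1
    have hmR : (0 : ℝ) < m := by exact_mod_cast hm0
    have h3 : (N : ℝ) / m ≤ ((N / m : ℕ) : ℝ) + 1 := by
      rw [div_le_iff₀ hmR]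
      have := Nat.lt_mul_div_succ N hm0
      have h4 : N < (N / m + 1) * m := by rw [mul_comm]; exact this
      exact_mod_cast h4.le
    have h5 : (0 : ℝ) ≤ 1 / m := by positivity
    nlinarith
  have h3 : ∑ m ∈ Icc 1 N, 1 / (m : ℝ) ≤ 1 + Real.log N := by
    have := harmonic_le_one_add_log N
    rw [harmonic_eq_sum_Icc] at this
    push_cast at this
    simpa [one_div] using this
  have h4 := zeta_low N
  have h5 := zeta_upp hN
  rw [hB] at h1 h2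
  have h6 : Real.pi ^ 2 / 6 * N ≤ (N : ℝ) * ∑ m ∈ Icc 1 N, 1 / (m : ℝ) ^ 2 + 1 := by
    have := mul_le_mul_of_nonneg_right h5 hN0.le
    have h7 : (∑ m ∈ Icc 1 N, 1 / (m : ℝ) ^ 2 + 1 / (N : ℝ)) * (N : ℝ) =
        (N : ℝ) * ∑ m ∈ Icc 1 N, 1 / (m : ℝ) ^ 2 + 1 := by
      rw [add_mul, one_div, inv_mul_cancel₀ hN0.ne', mul_comm]
    linarith
  have h7 : (N : ℝ) * ∑ m ∈ Icc 1 N, 1 / (m : ℝ) ^ 2 ≤ Real.pi ^ 2 / 6 * N := by
    have := mul_le_mul_of_nonneg_right h4 hN0.le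
    linarith
  have h8 : 0 ≤ Real.log N := Real.log_nonneg (by exact_mod_cast hN)
  rw [abs_le]
  constructor <;> linarith

theorem UU_eq_max {t : ℝ} {M : ℕ} (ht : t ≤ M) :
    UU t = ∑ n ∈ Icc 1 M, sg1 n * max (t - n) 0 := by
  unfold UU
  have h1 : Icc 1 ⌊t⌋₊ ⊆ Icc 1 M := Icc_subset_Icc le_rfl (Nat.floor_le_of_le ht)
  rw [← sum_subset h1]
  · refine sum_congr rfl fun n hn => ?_
    rw [mem_Icc] at hn
    have h2 : (n : ℝ) ≤ t := (Nat.le_floor_iff' (by omega)).1 hn.2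
    rw [max_eq_left (by linarith)]
  · intro n hn hn'
    rw [mem_Icc] at hn
    have h2 : ⌊t⌋₊ < n := by
      by_contra h
      exact hn' (mem_Icc.2 ⟨hn.1, not_lt.1 h⟩)
    have h3 : t < n := (Nat.floor_lt' (by omega)).1 h2
    rw [max_eq_right (by linarith), mul_zero]

theorem UU_cont (y z : ℝ) : ContinuousOn UU (Set.Icc y z) := by
  obtain ⟨M, hM⟩ := exists_nat_ge z
  have h1 : ContinuousOn (fun t : ℝ => ∑ n ∈ Icc 1 M, sg1 n * max (t - n) 0) (Set.Icc y z) := by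
    apply Continuous.continuousOn
    fun_prop
  exact h1.congr fun t ht => UU_eq_max (ht.2.trans hM)

theorem UU_right {t : ℝ} (ht : 0 ≤ t) :
    HasDerivWithinAt UU (∑ n ∈ Icc 1 ⌊t⌋₊, sg1 n) (Set.Ici t) t := by
  have h1 : HasDerivWithinAt (fun u : ℝ => ∑ n ∈ Icc 1 ⌊t⌋₊, sg1 n * (u - n))
      (∑ n ∈ Icc 1 ⌊t⌋₊, sg1 n * 1) (Set.Ici t) t :=
    HasDerivWithinAt.fun_sum fun n _ =>
      ((hasDerivWithinAt_id t (Set.Ici t)).sub_const (n : ℝ)).const_mul (sg1 n)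
  simp only [mul_one] at h1
  refine h1.congr_of_eventuallyEq ?_ rfl
  filter_upwards [self_mem_nhdsWithin,
    mem_nhdsWithin_of_mem_nhds (Iio_mem_nhds (Nat.lt_floor_add_one t))] with u hu1 hu2
  have h2 : ⌊u⌋₊ = ⌊t⌋₊ := by
    rw [Nat.floor_eq_iff (ht.trans hu1)]
    exact ⟨(Nat.floor_le ht).trans hu1, hu2⟩
  unfold UU
  rw [h2]

theorem MU_deriv {t : ℝ} (ht : 0 < t) :
    HasDerivAt MU (Real.pi ^ 2 / 6 * t -
      1 / 2 * (Real.log t + (Real.eulerMascheroniConstant + Real.log (2 * Real.pi)))) t := by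
  unfold MU
  have h1 : HasDerivAt (fun y : ℝ => Real.pi ^ 2 / 12 * y ^ 2) (Real.pi ^ 2 / 12 * (2 * t)) t := by
    have := (hasDerivAt_pow 2 t).const_mul (Real.pi ^ 2 / 12)
    simpa using this
  have h2 : HasDerivAt (fun y : ℝ => y / 2) (1 / 2) t := (hasDerivAt_id t).div_const 2
  have h3 : HasDerivAt (fun y : ℝ => Real.log y + Real.eulerMascheroniConstant +
      Real.log (2 * Real.pi) - 1) (t⁻¹) t :=
    (((Real.hasDerivAt_log ht.ne').add_const _).add_const _).sub_const _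
  have h4 := h1.sub (h2.mul h3)
  refine h4.congr_deriv ?_
  field_simp
  ring

/-- the package UDF -/
theorem udf : S_UDF := by
  obtain ⟨K, hK⟩ : ∃ K : ℝ, K = Real.eulerMascheroniConstant + Real.log (2 * Real.pi) := ⟨_, rfl⟩
  refine ⟨4 + |K|, by positivity, fun y z hy hyz => ?_⟩
  have hz : 1 ≤ z := hy.trans hyz
  have hc : ContinuousOn (fun t => UU t - MU t) (Set.Icc y z) :=
    (UU_cont y z).sub fun t ht =>
      (MU_deriv (by linarith [ht.1])).continuousAt.continuousWithinAt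
  have hd : ∀ t ∈ Set.Ico y z, HasDerivWithinAt (fun t => UU t - MU t)
      (∑ n ∈ Icc 1 ⌊t⌋₊, sg1 n - (Real.pi ^ 2 / 6 * t - 1 / 2 * (Real.log t + K))) (Set.Ici t) t := by
    intro t ht
    rw [hK]
    exact (UU_right (by linarith [ht.1])).sub (MU_deriv (by linarith [ht.1])).hasDerivWithinAt
  have hb : ∀ t ∈ Set.Ico y z,
      ‖∑ n ∈ Icc 1 ⌊t⌋₊, sg1 n - (Real.pi ^ 2 / 6 * t - 1 / 2 * (Real.log t + K))‖ ≤
        (4 + |K|) * (1 + Real.log z) := by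
    intro t ht
    have ht1 : 1 ≤ t := hy.trans ht.1
    have hN : 1 ≤ ⌊t⌋₊ := (Nat.le_floor_iff' one_ne_zero).2 (by exact_mod_cast ht1)
    have hN0 : (0 : ℝ) < ⌊t⌋₊ := by exact_mod_cast hN
    have h1 := sum_bound hN
    have h2 := Nat.floor_le (show 0 ≤ t by linarith)
    have h3 := Nat.lt_floor_add_one t
    have h4 : Real.log ⌊t⌋₊ ≤ Real.log t := Real.log_le_log hN0 h2
    have h5 : Real.log t ≤ Real.log z := Real.log_le_log (by linarith) ht.2.le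
    have h6 : 0 ≤ Real.log t := Real.log_nonneg ht1
    have h7 : Real.pi ^ 2 / 6 ≤ 2 := by
      have h8 := Real.pi_lt_d2
      have h9 := Real.pi_pos
      nlinarith
    have h10 : 0 ≤ Real.pi ^ 2 / 6 := by positivity
    have h11 := neg_abs_le K
    have h12 := le_abs_self K
    have h13 : 0 ≤ |K| := abs_nonneg K
    have h14 : 0 ≤ Real.pi ^ 2 / 6 * (t - ⌊t⌋₊) := mul_nonneg h10 (by linarith)
    have h15 : Real.pi ^ 2 / 6 * (t - ⌊t⌋₊) ≤ 2 * 1 :=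
      mul_le_mul h7 (by linarith) (by linarith) (by norm_num)
    obtain ⟨h16, h17⟩ := abs_le.1 h1
    have h18 : 0 ≤ |K| * Real.log z := mul_nonneg h13 (h6.trans h5)
    rw [Real.norm_eq_abs, abs_le]
    constructor <;> nlinarith
  have h := norm_image_sub_le_of_norm_deriv_right_le_segment hc hd hb z ⟨hyz, le_rfl⟩
  rwa [Real.norm_eq_abs] at h

/-- the package UUU -/
theorem uuu : S_USQ → S_UDF → S_UUU := by
  rintro ⟨C1, hC1, h1⟩ ⟨C2, hC2, h2⟩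
  obtain ⟨K, hK⟩ : ∃ K : ℝ, K = Real.eulerMascheroniConstant + Real.log (2 * Real.pi) := ⟨_, rfl⟩
  refine ⟨C1 + 15 * C2 + 5 + |K|, by positivity, fun y hy => ?_⟩
  have hy34 : 0 < y ^ (3 / 4 : ℝ) := Real.rpow_pos_of_pos hy _
  rcases le_or_gt 1 y with hy1 | hy1
  · obtain ⟨N, hN⟩ : ∃ N : ℕ, N = ⌊√y⌋₊ := ⟨_, rfl⟩
    have hs1 : 1 ≤ √y := Real.one_le_sqrt.2 hy1
    have hN1 : 1 ≤ N := by
      rw [hN]
      exact (Nat.le_floor_iff' one_ne_zero).2 (by exact_mod_cast hs1)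
    have hNR : (1 : ℝ) ≤ N := by exact_mod_cast hN1
    have hNs : (N : ℝ) ≤ √y := by rw [hN]; exact Nat.floor_le (Real.sqrt_nonneg y)
    have hsN : √y < N + 1 := by rw [hN]; exact Nat.lt_floor_add_one _
    have hsq : √y ^ 2 = y := Real.sq_sqrt hy.le
    have hNy : (N : ℝ) ^ 2 ≤ y := by rw [← hsq]; exact pow_le_pow_left₀ (by linarith) hNs 2
    have hdy : y - (N : ℝ) ^ 2 ≤ 3 * √y := by
      nlinarith
    have h3 := h1 N hN1
    have h4 := h2 ((N : ℝ) ^ 2) y (by nlinarith) hNy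
    have hlog : Real.log y ≤ 4 * y ^ (1 / 4 : ℝ) := by
      have := Real.log_le_rpow_div hy.le (show (0 : ℝ) < 1 / 4 by norm_num)
      linarith
    have hl0 : 0 ≤ Real.log y := Real.log_nonneg hy1
    have h14 : 1 ≤ y ^ (1 / 4 : ℝ) := Real.one_le_rpow hy1 (by norm_num)
    have hsq2 : √y = y ^ (1 / 2 : ℝ) := Real.sqrt_eq_rpow y
    have hprod : y ^ (1 / 4 : ℝ) * √y = y ^ (3 / 4 : ℝ) := by
      rw [hsq2, ← Real.rpow_add hy]; norm_num
    have hs34 : √y ≤ y ^ (3 / 4 : ℝ) := by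
      rw [← hprod]
      nlinarith [Real.sqrt_nonneg y]
    have h5 : |UU y - MU y| ≤ C1 * N + C2 * (1 + Real.log y) * (y - (N : ℝ) ^ 2) := by
      have : UU y - MU y = (UU ((N : ℝ) ^ 2) - MU ((N : ℝ) ^ 2)) +
          ((UU y - MU y) - (UU ((N : ℝ) ^ 2) - MU ((N : ℝ) ^ 2))) := by ring
      rw [this]
      exact (abs_add_le _ _).trans (add_le_add h3 h4)
    have h6 : C2 * (1 + Real.log y) * (y - (N : ℝ) ^ 2) ≤ 15 * C2 * y ^ (3 / 4 : ℝ) := by
      calc C2 * (1 + Real.log y) * (y - (N : ℝ) ^ 2) ≤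
          C2 * (5 * y ^ (1 / 4 : ℝ)) * (3 * √y) := by
            apply mul_le_mul _ hdy (by linarith) (by positivity)
            exact mul_le_mul_of_nonneg_left (by linarith) hC2.le
        _ = 15 * C2 * (y ^ (1 / 4 : ℝ) * √y) := by ring
        _ = _ := by rw [hprod]
    have h7 : C1 * N ≤ C1 * y ^ (3 / 4 : ℝ) := mul_le_mul_of_nonneg_left (hNs.trans hs34) hC1.le
    have h8 : 0 ≤ (5 + |K|) * y ^ (3 / 4 : ℝ) := by positivity
    calc |UU y - MU y| ≤ _ := h5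
      _ ≤ C1 * y ^ (3 / 4 : ℝ) + 15 * C2 * y ^ (3 / 4 : ℝ) + (5 + |K|) * y ^ (3 / 4 : ℝ) := by
        linarith
      _ = _ := by ring
  · have hU : UU y = 0 := by
      unfold UU
      rw [Nat.floor_eq_zero.2 hy1]
      simp
    have hy14 : 0 < y ^ (1 / 4 : ℝ) := Real.rpow_pos_of_pos hy _
    have hprod : y ^ (1 / 4 : ℝ) * y ^ (3 / 4 : ℝ) = y := by
      rw [← Real.rpow_add hy]; norm_num
    have h14 : y ^ (1 / 4 : ℝ) ≤ 1 := Real.rpow_le_one hy.le hy1.le (by norm_num)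
    have hy34' : y ≤ y ^ (3 / 4 : ℝ) := by
      calc y = y ^ (1 / 4 : ℝ) * y ^ (3 / 4 : ℝ) := hprod.symm
        _ ≤ 1 * y ^ (3 / 4 : ℝ) := mul_le_mul_of_nonneg_right h14 hy34.le
        _ = _ := one_mul _
    have hlog0 : Real.log y ≤ 0 := Real.log_nonpos hy.le hy1.le
    have hlog : y * (-Real.log y) ≤ 4 * y ^ (3 / 4 : ℝ) := by
      have h3 := Real.log_le_rpow_div (inv_nonneg.2 hy.le) (show (0 : ℝ) < 1 / 4 by norm_num)
      rw [Real.log_inv, Real.inv_rpow hy.le] at h3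
      have h4 : -Real.log y ≤ 4 * (y ^ (1 / 4 : ℝ))⁻¹ := by linarith
      calc y * (-Real.log y) ≤ y * (4 * (y ^ (1 / 4 : ℝ))⁻¹) := mul_le_mul_of_nonneg_left h4 hy.le
        _ = 4 * ((y ^ (1 / 4 : ℝ) * y ^ (3 / 4 : ℝ)) * (y ^ (1 / 4 : ℝ))⁻¹) := by rw [hprod]; ring
        _ = 4 * y ^ (3 / 4 : ℝ) := by field_simp
    rw [hU, zero_sub, abs_neg]
    unfold MU
    have h7 : Real.pi ^ 2 / 12 ≤ 1 := by
      have h8 := Real.pi_lt_d2
      have h9 := Real.pi_pos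
      nlinarith
    have h10 : 0 ≤ Real.pi ^ 2 / 12 := by positivity
    have h11 : Real.pi ^ 2 / 12 * y ^ 2 ≤ y ^ (3 / 4 : ℝ) := by
      have : y ^ 2 ≤ y := by nlinarith
      calc Real.pi ^ 2 / 12 * y ^ 2 ≤ 1 * y := mul_le_mul h7 this (by positivity) (by norm_num)
        _ ≤ _ := by linarith
    have h12 : 0 ≤ Real.pi ^ 2 / 12 * y ^ 2 := by positivity
    have e1 : Real.log y + Real.eulerMascheroniConstant + Real.log (2 * Real.pi) - 1 =
        Real.log y + (K - 1) := by rw [hK]; ring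
    rw [e1]
    have h13 : |y / 2 * (Real.log y + (K - 1))| ≤ 4 * y ^ (3 / 4 : ℝ) + |K| * y ^ (3 / 4 : ℝ) := by
      rw [abs_mul, abs_of_pos (by linarith : 0 < y / 2)]
      have h15 : |Real.log y + (K - 1)| ≤ -Real.log y + (|K| + 1) := by
        refine (abs_add_le _ _).trans ?_
        rw [abs_of_nonpos hlog0]
        have : |K - 1| ≤ |K| + 1 := by
          refine (abs_sub _ _).trans ?_
          simp
        linarith
      have h16 : y / 2 * |Real.log y + (K - 1)| ≤ y / 2 * (-Real.log y + (|K| + 1)) :=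
        mul_le_mul_of_nonneg_left h15 (by linarith)
      have h17 : 0 ≤ |K| := abs_nonneg K
      nlinarith [mul_nonneg h17 hy.le, mul_le_mul_of_nonneg_left hy34' h17]
    have h18 := abs_le.1 h13
    have h19 : 0 ≤ (C1 + 15 * C2) * y ^ (3 / 4 : ℝ) := by positivity
    rw [abs_le]
    constructor <;> nlinarith [h18.1, h18.2]

end Pool.Agent.P8H88.FG
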